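import Mathlib

/-!
# Sublattices of subspace lattices over division rings are sublattices of subspace lattices over fields
-/

namespace Pool.Agent.Results.MP_332034_al.RestrictToCentre

universe u v w

/-- Every lattice `L` (of any size, in particular every finite one) that embeds, preserving binary
meets and joins, into the lattice of subspaces of a vector space over a division ring also embeds
into the lattice of subspaces of a vector space over a field. -/
theorem result {L : Type u} [Lattice L] {D : Type v} [DivisionRing D] {V : Type w} [AddCommGroup V]
    [Module D V] (f : LatticeHom L (Submodule D V)) (hf : Function.Injective f) :
    ∃ (F : Type v) (_ : Field F) (_ : Module F V) (g : LatticeHom L (Submodule F V)),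
      Function.Injective g := by
  refine ⟨Subring.center D, inferInstance, inferInstance,
    { toFun := fun x => Submodule.restrictScalars (Subring.center D) (f x)
      map_sup' := fun x y => ?_
      map_inf' := fun x y => ?_ }, ?_⟩
  · rw [map_sup]
    ext z
    rw [Submodule.restrictScalars_mem, Submodule.mem_sup, Submodule.mem_sup]
    exact Iff.rfl
  · rw [map_inf]
    rfl
  · intro x y h
    exact hf (Submodule.restrictScalars_injective (Subring.center D) D V h)

end Pool.Agent.Results.MP_332034_al.RestrictToCentre
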